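import Pool.Agent.Helper5.AF.GCO
import Pool.Agent.Helper26.AL.GoalsA

/-!
# Project AL (MP_af6c86_pr): packet ISO, isolated vertices and relabelling do not matter
-/

set_option autoImplicit false

namespace Pool.Agent.Helper74.AL

open Finset Pool.Agent.Helper26.AF Pool.Agent.Helper26.AL Pool.Agent.Helper5.AF

section main

variable {V W : Type} (e : W ↪ V) (Γ : SimpleGraph W)

/-- the darts of the image -/
def gdm (d : Γ.Dart) : (Γ.map e).Dart :=
  ⟨(e d.fst, e d.snd), (SimpleGraph.map_adj_apply (G := Γ) (f := e)).2 d.adj⟩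

theorem gdm_fst (d : Γ.Dart) : (gdm e Γ d).fst = e d.fst := rfl

theorem gdm_snd (d : Γ.Dart) : (gdm e Γ d).snd = e d.snd := rfl

theorem gdm_bij : Function.Bijective (gdm e Γ) := by
  constructor
  · intro d d' h
    have h1 : e d.fst = e d'.fst := by rw [← gdm_fst, h, gdm_fst]
    have h2 : e d.snd = e d'.snd := by rw [← gdm_snd, h, gdm_snd]
    apply SimpleGraph.Dart.ext
    exact Prod.ext (e.injective h1) (e.injective h2)
  · intro d
    obtain ⟨a, b, hab, ha, hb⟩ := (SimpleGraph.map_adj e Γ d.fst d.snd).1 d.adj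
    refine ⟨⟨(a, b), hab⟩, ?_⟩
    apply SimpleGraph.Dart.ext
    exact Prod.ext ha hb

/-- the equivalence of the darts -/
noncomputable def gde : Γ.Dart ≃ (Γ.map e).Dart := Equiv.ofBijective _ (gdm_bij e Γ)

theorem gde_fst (d : Γ.Dart) : (gde e Γ d).fst = e d.fst := rfl

theorem gtr_rev : tr (gde e Γ) (rev (Γ.map e)) = rev Γ := by
  ext1 d
  rw [tr_apply, Equiv.symm_apply_eq]
  apply SimpleGraph.Dart.ext
  rfl

theorem gnot_adj_out {v : V} (hv : v ∉ Set.range e) (w : V) : ¬ (Γ.map e).Adj v w := by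
  intro h
  obtain ⟨a, b, -, ha, -⟩ := (SimpleGraph.map_adj e Γ v w).1 h
  exact hv ⟨a, ha⟩

theorem geq_of_reach {v w : V} (hv : v ∉ Set.range e) (h : (Γ.map e).Reachable v w) :
    v = w := by
  obtain ⟨p⟩ := h
  cases p with
  | nil => rfl
  | cons hadj _ => exact absurd hadj (gnot_adj_out e Γ hv _)

theorem reach_back {v w : V} (p : (Γ.map e).Walk v w) :
    ∀ a : W, e a = v → ∃ b, e b = w ∧ Γ.Reachable a b := by
  induction p with
  | nil => exact fun a ha => ⟨a, ha, SimpleGraph.Reachable.refl a⟩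
  | cons hadj _ ih =>
    intro a ha
    obtain ⟨a', b', hab, h1, h2⟩ := (SimpleGraph.map_adj e Γ _ _).1 hadj
    have h3 : a' = a := e.injective (h1.trans ha.symm)
    subst h3
    obtain ⟨b, hb, hr⟩ := ih b' h2
    exact ⟨b, hb, hab.reachable.trans hr⟩

theorem reach_iff (a b : W) : (Γ.map e).Reachable (e a) (e b) ↔ Γ.Reachable a b := by
  constructor
  · rintro ⟨p⟩
    obtain ⟨b', hb, hr⟩ := reach_back e Γ p a rfl
    have h3 : b' = b := e.injective hb
    subst h3
    exact hr
  · intro h
    exact h.map (SimpleGraph.Embedding.map e Γ).toHom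

/-- components: the images and the outer vertices -/
def cF : Γ.ConnectedComponent ⊕ {v : V // v ∉ Set.range e} → (Γ.map e).ConnectedComponent
  | Sum.inl c => c.map (SimpleGraph.Embedding.map e Γ).toHom
  | Sum.inr v => (Γ.map e).connectedComponentMk v.1

theorem cF_bij : Function.Bijective (cF e Γ) := by
  constructor
  · rintro (c | v) (c' | v') h
    · induction c using SimpleGraph.ConnectedComponent.ind with
      | _ a =>
        induction c' using SimpleGraph.ConnectedComponent.ind with
        | _ b =>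
          have h1 : (Γ.map e).connectedComponentMk (e a) = (Γ.map e).connectedComponentMk (e b) := h
          have h2 := (reach_iff e Γ a b).1 (SimpleGraph.ConnectedComponent.eq.1 h1)
          rw [SimpleGraph.ConnectedComponent.eq.2 h2]
    · exfalso
      induction c using SimpleGraph.ConnectedComponent.ind with
      | _ a =>
        have h1 : (Γ.map e).connectedComponentMk (e a) = (Γ.map e).connectedComponentMk v'.1 := h
        have h2 := (SimpleGraph.ConnectedComponent.eq.1 h1).symm
        have h3 := geq_of_reach e Γ v'.2 h2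
        exact v'.2 ⟨a, h3.symm⟩
    · exfalso
      induction c' using SimpleGraph.ConnectedComponent.ind with
      | _ a =>
        have h1 : (Γ.map e).connectedComponentMk v.1 = (Γ.map e).connectedComponentMk (e a) := h
        have h2 := (SimpleGraph.ConnectedComponent.eq.1 h1)
        have h3 := geq_of_reach e Γ v.2 h2
        exact v.2 ⟨a, h3.symm⟩
    · have h1 : (Γ.map e).connectedComponentMk v.1 = (Γ.map e).connectedComponentMk v'.1 := h
      have h2 := SimpleGraph.ConnectedComponent.eq.1 h1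
      have h3 := geq_of_reach e Γ v.2 h2
      rw [Subtype.ext h3]
  · intro c
    induction c using SimpleGraph.ConnectedComponent.ind with
    | _ v =>
      by_cases hv : v ∈ Set.range e
      · obtain ⟨a, rfl⟩ := hv
        exact ⟨Sum.inl (Γ.connectedComponentMk a), rfl⟩
      · exact ⟨Sum.inr ⟨v, hv⟩, rfl⟩

theorem comp_eq [Finite V] [Finite W] : Nat.card (Γ.map e).ConnectedComponent
    = Nat.card Γ.ConnectedComponent + Nat.card {v : V // v ∉ Set.range e} := by
  rw [← Nat.card_sum]
  exact (Nat.card_congr (Equiv.ofBijective _ (cF_bij e Γ))).symm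

/-- vertices: the images and the outer vertices -/
def vF : W ⊕ {v : V // v ∉ Set.range e} → V
  | Sum.inl a => e a
  | Sum.inr v => v.1

theorem vF_bij : Function.Bijective (vF e) := by
  constructor
  · rintro (a | v) (a' | v') h
    · have h1 : e a = e a' := h
      rw [e.injective h1]
    · have h1 : e a = v'.1 := h
      exact absurd ⟨a, h1⟩ v'.2
    · have h1 : v.1 = e a' := h
      exact absurd ⟨a', h1.symm⟩ v.2
    · have h1 : v.1 = v'.1 := h
      rw [Subtype.ext h1]
  · intro v
    by_cases hv : v ∈ Set.range e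
    · obtain ⟨a, rfl⟩ := hv
      exact ⟨Sum.inl a, rfl⟩
    · exact ⟨Sum.inr ⟨v, hv⟩, rfl⟩

theorem card_eq [Finite V] [Finite W] : Nat.card V
    = Nat.card W + Nat.card {v : V // v ∉ Set.range e} := by
  rw [← Nat.card_sum]
  exact (Nat.card_congr (Equiv.ofBijective _ (vF_bij e))).symm

theorem iso_iff (a : W) : (∀ w, ¬ (Γ.map e).Adj (e a) w) ↔ ∀ b, ¬ Γ.Adj a b := by
  constructor
  · intro h b hb
    exact h (e b) ((SimpleGraph.map_adj_apply (G := Γ) (f := e)).2 hb)
  · intro h w hw
    obtain ⟨a', b', hab, h1, -⟩ := (SimpleGraph.map_adj e Γ _ _).1 hw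
    rw [e.injective h1] at hab
    exact h b' hab

/-- isolated vertices: the images of the isolated vertices and the outer vertices -/
def iF : {a : W // ∀ b, ¬ Γ.Adj a b} ⊕ {v : V // v ∉ Set.range e} →
    {v : V // ∀ w, ¬ (Γ.map e).Adj v w}
  | Sum.inl a => ⟨e a.1, (iso_iff e Γ a.1).2 a.2⟩
  | Sum.inr v => ⟨v.1, gnot_adj_out e Γ v.2⟩

theorem iF_bij : Function.Bijective (iF e Γ) := by
  constructor
  · rintro (a | v) (a' | v') h
    · have h1 : e a.1 = e a'.1 := congrArg Subtype.val h
      rw [Subtype.ext (e.injective h1)]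
    · have h1 : e a.1 = v'.1 := congrArg Subtype.val h
      exact absurd ⟨a.1, h1⟩ v'.2
    · have h1 : v.1 = e a'.1 := congrArg Subtype.val h
      exact absurd ⟨a'.1, h1.symm⟩ v.2
    · have h1 : v.1 = v'.1 := congrArg (fun x : {v : V // ∀ w, ¬ (Γ.map e).Adj v w} => x.1) h
      rw [Subtype.ext h1]
  · rintro ⟨v, hv2⟩
    by_cases hv : v ∈ Set.range e
    · obtain ⟨a, rfl⟩ := hv
      exact ⟨Sum.inl ⟨a, (iso_iff e Γ a).1 hv2⟩, rfl⟩
    · exact ⟨Sum.inr ⟨v, hv⟩, rfl⟩

theorem iso_eq [Finite V] [Finite W] : Nat.card {v : V // ∀ w, ¬ (Γ.map e).Adj v w}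
    = Nat.card {a : W // ∀ b, ¬ Γ.Adj a b} + Nat.card {v : V // v ∉ Set.range e} := by
  rw [← Nat.card_sum]
  exact (Nat.card_congr (Equiv.ofBijective _ (iF_bij e Γ))).symm

theorem gne_eq : ne (Γ.map e) = ne Γ := by
  unfold ne
  rw [SimpleGraph.edgeSet_map]
  exact Nat.card_image_of_injective e.sym2Map.injective _

theorem rot_iff (σ : Equiv.Perm (Γ.map e).Dart) :
    IsRot (Γ.map e) σ ↔ IsRot Γ (tr (gde e Γ) σ) := by
  constructor
  · intro h
    constructor
    · intro d
      apply e.injective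
      rw [← gde_fst e Γ, tr_apply, Equiv.apply_symm_apply, h.src, gde_fst]
    · intro d d' hdd
      rw [sameCycle_tr]
      apply h.cyc
      rw [gde_fst, gde_fst, hdd]
  · intro h
    constructor
    · intro d
      obtain ⟨d, rfl⟩ := (gde e Γ).surjective d
      have h1 := h.src d
      have h2 : (gde e Γ (tr (gde e Γ) σ d)).fst = (gde e Γ d).fst := by
        rw [gde_fst, gde_fst, h1]
      rw [tr_apply, Equiv.apply_symm_apply] at h2
      exact h2
    · intro d d' hdd
      obtain ⟨d, rfl⟩ := (gde e Γ).surjective d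
      obtain ⟨d', rfl⟩ := (gde e Γ).surjective d'
      rw [gde_fst, gde_fst] at hdd
      have h1 := h.cyc d d' (e.injective hdd)
      rwa [sameCycle_tr] at h1

theorem faces_eq [Finite V] [Finite W] (σ : Equiv.Perm (Γ.map e).Dart) :
    faces (Γ.map e) σ = faces Γ (tr (gde e Γ) σ) + Nat.card {v : V // v ∉ Set.range e} := by
  unfold faces
  rw [iso_eq, ← gtr_rev e Γ, ← tr_mul, orb_tr]
  ring

end main

/-- PACKET ISO (isolated vertices and relabelling do not matter). -/
theorem goalISO : StmtISO := by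
  intro V W _ _ _ _ e Γ g
  have hc := comp_eq e Γ
  have hv := card_eq e
  have hn := gne_eq e Γ
  constructor
  · rintro ⟨σ, hσ, h⟩
    refine ⟨tr (gde e Γ) σ, (rot_iff e Γ σ).1 hσ, ?_⟩
    have hf := faces_eq e Γ σ
    omega
  · rintro ⟨σ, hσ, h⟩
    have h1 : tr (gde e Γ) (tr (gde e Γ).symm σ) = σ := by
      ext1 d
      rw [tr_apply, tr_apply]
      simp
    refine ⟨tr (gde e Γ).symm σ, (rot_iff e Γ _).2 (by rw [h1]; exact hσ), ?_⟩
    have hf := faces_eq e Γ (tr (gde e Γ).symm σ)
    rw [h1] at hf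
    omega

end Pool.Agent.Helper74.AL
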