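import Pool.Agent.Helper26.AL.GoalsC

/-!
# MP_af6c86_pr, project AL, packet LMT: the pointwise limit
-/

set_option autoImplicit false

namespace Pool.Agent.Helper74.AL

open Finset Filter Topology Pool.Agent.Helper26.AF Pool.Agent.Helper26.AL

namespace LMTx

theorem log2 {t : ℝ} (ht : |t| ≤ 1 / 2) :
    |Real.log (1 - t) - (-t - t ^ 2 / 2)| ≤ 2 * |t| ^ 3 := by
  have h1 : |t| < 1 := by linarith
  have h2 := Real.abs_log_sub_add_sum_range_le h1 2
  have h3 : |t| ^ (2 + 1) / (1 - |t|) ≤ 2 * |t| ^ 3 := by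
    rw [div_le_iff₀ (by linarith)]
    have h4 : 0 ≤ |t| ^ 3 := by positivity
    have h5 : 0 ≤ |t| ^ 3 * (1 - 2 * |t|) := mul_nonneg h4 (by linarith)
    have h6 : |t| ^ (2 + 1) = |t| ^ 3 := rfl
    rw [h6]
    linarith
  refine le_trans (le_of_eq ?_) (h2.trans h3)
  congr 1
  simp [Finset.sum_range_succ]
  ring

theorem log1 {t : ℝ} (ht : |t| ≤ 1 / 2) : |Real.log (1 - t) + t| ≤ 2 * |t| ^ 2 := by
  have h1 : |t| < 1 := by linarith
  have h2 := Real.abs_log_sub_add_sum_range_le h1 1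
  have h3 : |t| ^ (1 + 1) / (1 - |t|) ≤ 2 * |t| ^ 2 := by
    rw [div_le_iff₀ (by linarith)]
    have h4 : 0 ≤ |t| ^ 2 := by positivity
    have h5 : 0 ≤ |t| ^ 2 * (1 - 2 * |t|) := mul_nonneg h4 (by linarith)
    have h6 : |t| ^ (1 + 1) = |t| ^ 2 := rfl
    rw [h6]
    linarith
  refine le_trans (le_of_eq ?_) (h2.trans h3)
  congr 1
  simp
  ring

theorem log_desc (n : ℕ) (hn : 1 ≤ n) (k : ℕ) : 2 * k ≤ n →
    |Real.log (n.descFactorial k : ℝ) - ((k : ℝ) * Real.log n -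
      (k : ℝ) * ((k : ℝ) - 1) / (2 * n) -
      (k : ℝ) * ((k : ℝ) - 1) * (2 * (k : ℝ) - 1) / (12 * (n : ℝ) ^ 2))| ≤
      2 * (k : ℝ) ^ 4 / (n : ℝ) ^ 3 := by
  have hN : (0 : ℝ) < n := by exact_mod_cast hn
  induction k with
  | zero => intro _; simp
  | succ k ih =>
    intro hk
    have ih' := ih (by omega)
    have hkn : k < n := by omega
    have ht : |(k : ℝ) / n| ≤ 1 / 2 := by
      rw [abs_of_nonneg (by positivity), div_le_div_iff₀ hN (by norm_num)]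
      have : (2 * k : ℕ) ≤ n := by omega
      have h2 : (2 : ℝ) * k ≤ n := by exact_mod_cast this
      linarith
    have h1 := log2 ht
    have hsub : ((n - k : ℕ) : ℝ) = (n : ℝ) * (1 - (k : ℝ) / n) := by
      rw [Nat.cast_sub hkn.le]
      field_simp
    have hpos1 : (0 : ℝ) < 1 - (k : ℝ) / n := by
      have := (abs_le.1 ht).2
      linarith
    have hdpos : (0 : ℝ) < (n.descFactorial k : ℝ) := by
      exact_mod_cast Nat.descFactorial_pos.2 hkn.le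
    have hlog : Real.log (n.descFactorial (k + 1) : ℝ) =
        Real.log n + Real.log (1 - (k : ℝ) / n) + Real.log (n.descFactorial k : ℝ) := by
      rw [Nat.descFactorial_succ, Nat.cast_mul, hsub,
        Real.log_mul (mul_pos hN hpos1).ne' hdpos.ne', Real.log_mul hN.ne' hpos1.ne']
    rw [hlog]
    rw [abs_of_nonneg (show (0 : ℝ) ≤ (k : ℝ) / n by positivity)] at h1
    have key : Real.log n + Real.log (1 - (k : ℝ) / n) + Real.log (n.descFactorial k : ℝ) -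
        (((k + 1 : ℕ) : ℝ) * Real.log n - ((k + 1 : ℕ) : ℝ) * (((k + 1 : ℕ) : ℝ) - 1) / (2 * n) -
          ((k + 1 : ℕ) : ℝ) * (((k + 1 : ℕ) : ℝ) - 1) * (2 * ((k + 1 : ℕ) : ℝ) - 1) /
            (12 * (n : ℝ) ^ 2)) =
        (Real.log (1 - (k : ℝ) / n) - (-((k : ℝ) / n) - ((k : ℝ) / n) ^ 2 / 2)) +
        (Real.log (n.descFactorial k : ℝ) - ((k : ℝ) * Real.log n -
          (k : ℝ) * ((k : ℝ) - 1) / (2 * n) -
          (k : ℝ) * ((k : ℝ) - 1) * (2 * (k : ℝ) - 1) / (12 * (n : ℝ) ^ 2))) := by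
      push_cast
      field_simp
      ring
    rw [key]
    refine (abs_add_le _ _).trans ((add_le_add h1 ih').trans ?_)
    have e1 : 2 * ((k : ℝ) / n) ^ 3 + 2 * (k : ℝ) ^ 4 / (n : ℝ) ^ 3 =
        (2 * (k : ℝ) ^ 3 + 2 * (k : ℝ) ^ 4) / (n : ℝ) ^ 3 := by
      field_simp
    rw [e1]
    refine div_le_div_of_nonneg_right ?_ (by positivity)
    push_cast
    have hk0 : (0 : ℝ) ≤ k := by positivity
    nlinarith [pow_nonneg hk0 2, pow_nonneg hk0 3]

/-- The bound of the error in terms of `y = k / n^(2/3)` and `s = n^(-1/3)`. -/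
noncomputable def FF (l r y s : ℝ) : ℝ :=
  2 * y ^ 4 * s + (y + r * s ^ 2) * (2 * |l| ^ 3 * s) + 8 * (y * s + y * s ^ 4 + r * s ^ 6) +
    (y * s / 2 + y ^ 2 * s ^ 2 / 4 + y * s ^ 4 / 12 + r * (|l| * s) + r * (|l| * s) ^ 2 / 2 +
      (1 + |l| * s) * (y * s) / 2 + (1 + |l| * s) * (y * s + r * s ^ 3))


/-- The expansion of the logarithm. -/
theorem bound (l : ℝ) (r n k : ℕ) (hn : 1 ≤ n) (h2k : 2 * k ≤ n) (s : ℝ) (hs : 0 < s)
    (hNs : (n : ℝ) * s ^ 3 = 1) (hls : |l * s| ≤ 1 / 2) (hp1 : (1 + l * s) * s ^ 3 ≤ 1 / 2) :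
    |Real.log (n.descFactorial k : ℝ) + (MM n k : ℝ) * Real.log (1 - (1 + l * s) * s ^ 3) +
      ((k : ℝ) + r) * (Real.log ((1 + l * s) * s ^ 3) - Real.log (1 - (1 + l * s) * s ^ 3)) + k +
      r * Real.log n -
      (-(k * s ^ 2) ^ 3 / 6 - l ^ 2 * (k * s ^ 2) / 2 + l * (k * s ^ 2) ^ 2 / 2)| ≤
      FF |l| r (k * s ^ 2) s := by
  have hN : (0 : ℝ) < n := by exact_mod_cast hn
  have hk0 : (0 : ℝ) ≤ k := by positivity
  have hr0 : (0 : ℝ) ≤ r := by positivity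
  have hl1 : 0 < 1 + l * s := by
    have := (abs_le.1 hls).1
    linarith
  have hl2 : 1 + l * s ≤ 3 / 2 := by
    have := (abs_le.1 hls).2
    linarith
  have hinv : 1 / (n : ℝ) = s ^ 3 := by
    rw [div_eq_iff hN.ne', mul_comm]
    exact hNs.symm
  have hp0 : 0 < (1 + l * s) * s ^ 3 := by positivity
  have hlogp : Real.log ((1 + l * s) * s ^ 3) = Real.log (1 + l * s) - Real.log n := by
    rw [Real.log_mul hl1.ne' (by positivity), ← hinv, Real.log_div one_ne_zero hN.ne',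
      Real.log_one]
    ring
  have hM : (MM n k : ℝ) = (k : ℝ) * ((n : ℝ) - k) + (k : ℝ) * ((k : ℝ) - 1) / 2 := by
    rw [MM, Nat.cast_add, Nat.cast_mul, Nat.cast_sub (by omega), Nat.cast_choose_two]
  have h1 := log_desc n hn k h2k
  have h2 : |Real.log (1 - -(l * s)) - (-(-(l * s)) - (-(l * s)) ^ 2 / 2)| ≤
      2 * |(-(l * s))| ^ 3 := log2 (by rwa [abs_neg])
  have h3 : |Real.log (1 - (1 + l * s) * s ^ 3) + (1 + l * s) * s ^ 3| ≤
      2 * |(1 + l * s) * s ^ 3| ^ 2 := log1 (by rwa [abs_of_pos hp0])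
  rw [abs_neg, sub_neg_eq_add, neg_neg, neg_sq, abs_mul, abs_of_pos hs] at h2
  rw [abs_of_pos hp0] at h3
  have e1 : (k : ℝ) * ((k : ℝ) - 1) / (2 * n) = (k : ℝ) * ((k : ℝ) - 1) / 2 * s ^ 3 := by
    rw [← hinv]
    field_simp
  have e2 : (k : ℝ) * ((k : ℝ) - 1) * (2 * (k : ℝ) - 1) / (12 * (n : ℝ) ^ 2) =
      (k : ℝ) * ((k : ℝ) - 1) * (2 * (k : ℝ) - 1) / 12 * s ^ 6 := by
    have : s ^ 6 = (1 / (n : ℝ)) ^ 2 := by rw [hinv]; ring
    rw [this]
    field_simp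
  have e3 : 2 * (k : ℝ) ^ 4 / (n : ℝ) ^ 3 = 2 * (k * s ^ 2) ^ 4 * s := by
    have : 2 * (k * s ^ 2) ^ 4 * s = 2 * (k : ℝ) ^ 4 * (s ^ 3) ^ 3 := by ring
    rw [this, ← hinv]
    field_simp
  rw [e1, e2, e3] at h1
  set L1 : ℝ := Real.log (n.descFactorial k : ℝ) - ((k : ℝ) * Real.log n -
      (k : ℝ) * ((k : ℝ) - 1) / 2 * s ^ 3 -
      (k : ℝ) * ((k : ℝ) - 1) * (2 * (k : ℝ) - 1) / 12 * s ^ 6) with hL1
  set L2 : ℝ := Real.log (1 + l * s) - (l * s - (l * s) ^ 2 / 2) with hL2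
  set L3 : ℝ := Real.log (1 - (1 + l * s) * s ^ 3) + (1 + l * s) * s ^ 3 with hL3
  have key : Real.log (n.descFactorial k : ℝ) + (MM n k : ℝ) * Real.log (1 - (1 + l * s) * s ^ 3) +
      ((k : ℝ) + r) * (Real.log ((1 + l * s) * s ^ 3) - Real.log (1 - (1 + l * s) * s ^ 3)) + k +
      r * Real.log n -
      (-(k * s ^ 2) ^ 3 / 6 - l ^ 2 * (k * s ^ 2) / 2 + l * (k * s ^ 2) ^ 2 / 2) =
      L1 + ((k : ℝ) + r) * L2 +
      ((k : ℝ) * ((n : ℝ) - k) + (k : ℝ) * ((k : ℝ) - 1) / 2 - k - r) * L3 +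
      ((k * s ^ 2) * s / 2 + (k * s ^ 2) ^ 2 * s ^ 2 / 4 - (k * s ^ 2) * s ^ 4 / 12 + r * (l * s) -
        r * (l * s) ^ 2 / 2 + (1 + l * s) * ((k * s ^ 2) * s) / 2 +
        (1 + l * s) * ((k * s ^ 2) * s + r * s ^ 3)) := by
    rw [hlogp, hM, hL1, hL2, hL3]
    linear_combination (-(k : ℝ) * (1 + l * s)) * hNs
  rw [key]
  have b2 : |((k : ℝ) + r) * L2| ≤ ((k * s ^ 2) + r * s ^ 2) * (2 * |l| ^ 3 * s) := by
    rw [abs_mul, abs_of_nonneg (by positivity : (0 : ℝ) ≤ (k : ℝ) + r)]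
    calc ((k : ℝ) + r) * |L2| ≤ ((k : ℝ) + r) * (2 * (|l| * s) ^ 3) :=
          mul_le_mul_of_nonneg_left h2 (by positivity)
      _ = ((k * s ^ 2) + r * s ^ 2) * (2 * |l| ^ 3 * s) := by ring
  have hMk0 : (0 : ℝ) ≤ (k : ℝ) * ((n : ℝ) - k) + (k : ℝ) * ((k : ℝ) - 1) / 2 := by
    rw [← hM]
    positivity
  have hMk1 : (k : ℝ) * ((n : ℝ) - k) + (k : ℝ) * ((k : ℝ) - 1) / 2 ≤ k * n := by nlinarith
  have b3 : |((k : ℝ) * ((n : ℝ) - k) + (k : ℝ) * ((k : ℝ) - 1) / 2 - k - r) * L3| ≤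
      8 * ((k * s ^ 2) * s + (k * s ^ 2) * s ^ 4 + r * s ^ 6) := by
    rw [abs_mul]
    have c1 : |(k : ℝ) * ((n : ℝ) - k) + (k : ℝ) * ((k : ℝ) - 1) / 2 - k - r| ≤
        k * n + k + r := by
      rw [abs_le]
      constructor <;> nlinarith [mul_nonneg hk0 hN.le]
    have c2 : 2 * ((1 + l * s) * s ^ 3) ^ 2 ≤ 8 * s ^ 6 := by
      have c3 : (1 + l * s) ^ 2 ≤ 4 := by nlinarith
      calc 2 * ((1 + l * s) * s ^ 3) ^ 2 = 2 * (1 + l * s) ^ 2 * s ^ 6 := by ring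
        _ ≤ 2 * 4 * s ^ 6 := by
          refine mul_le_mul_of_nonneg_right ?_ (by positivity)
          linarith
        _ = 8 * s ^ 6 := by ring
    calc |(k : ℝ) * ((n : ℝ) - k) + (k : ℝ) * ((k : ℝ) - 1) / 2 - k - r| * |L3|
        ≤ (k * n + k + r) * (8 * s ^ 6) :=
          mul_le_mul c1 (h3.trans c2) (abs_nonneg _) (by positivity)
      _ = 8 * (k * ((n : ℝ) * s ^ 3) * s ^ 3 + k * s ^ 6 + r * s ^ 6) := by ring
      _ = 8 * ((k * s ^ 2) * s + (k * s ^ 2) * s ^ 4 + r * s ^ 6) := by rw [hNs]; ring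
  have hy0 : (0 : ℝ) ≤ k * s ^ 2 := by positivity
  have b4 : |(k * s ^ 2) * s / 2 + (k * s ^ 2) ^ 2 * s ^ 2 / 4 - (k * s ^ 2) * s ^ 4 / 12 +
        r * (l * s) -
        r * (l * s) ^ 2 / 2 + (1 + l * s) * ((k * s ^ 2) * s) / 2 +
        (1 + l * s) * ((k * s ^ 2) * s + r * s ^ 3)| ≤
      (k * s ^ 2) * s / 2 + (k * s ^ 2) ^ 2 * s ^ 2 / 4 + (k * s ^ 2) * s ^ 4 / 12 +
        r * (|l| * s) + r * (|l| * s) ^ 2 / 2 + (1 + |l| * s) * ((k * s ^ 2) * s) / 2 +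
        (1 + |l| * s) * ((k * s ^ 2) * s + r * s ^ 3) := by
    have hl3 : l * s ≤ |l| * s := mul_le_mul_of_nonneg_right (le_abs_self l) hs.le
    have hl4 : -(|l| * s) ≤ l * s := by
      have := mul_le_mul_of_nonneg_right (neg_abs_le l) hs.le
      linarith
    have hl5 : (l * s) ^ 2 = (|l| * s) ^ 2 := by rw [mul_pow, mul_pow, sq_abs]
    have d1 : (0 : ℝ) ≤ (k * s ^ 2) * s := by positivity
    have d2 : (0 : ℝ) ≤ (k * s ^ 2) ^ 2 * s ^ 2 := by positivity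
    have d3 : (0 : ℝ) ≤ (k * s ^ 2) * s ^ 4 := by positivity
    have d4 : (0 : ℝ) ≤ r * s ^ 3 := by positivity
    have d5 : (0 : ℝ) ≤ r * (|l| * s) ^ 2 := by positivity
    have m1 : r * (l * s) ≤ r * (|l| * s) := mul_le_mul_of_nonneg_left hl3 hr0
    have m2 : -(r * (|l| * s)) ≤ r * (l * s) := by
      have := mul_le_mul_of_nonneg_left hl4 hr0
      linarith
    have m3 : (1 + l * s) * ((k * s ^ 2) * s) ≤ (1 + |l| * s) * ((k * s ^ 2) * s) :=
      mul_le_mul_of_nonneg_right (by linarith) d1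
    have m4 : (1 + l * s) * ((k * s ^ 2) * s + r * s ^ 3) ≤
        (1 + |l| * s) * ((k * s ^ 2) * s + r * s ^ 3) :=
      mul_le_mul_of_nonneg_right (by linarith) (by linarith)
    have m5 : 0 ≤ (1 + l * s) * ((k * s ^ 2) * s) := mul_nonneg hl1.le d1
    have m6 : 0 ≤ (1 + l * s) * ((k * s ^ 2) * s + r * s ^ 3) :=
      mul_nonneg hl1.le (by linarith)
    rw [hl5, abs_le]
    constructor <;> linarith
  calc |L1 + ((k : ℝ) + r) * L2 +
      ((k : ℝ) * ((n : ℝ) - k) + (k : ℝ) * ((k : ℝ) - 1) / 2 - k - r) * L3 + _|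
      ≤ |L1| + |((k : ℝ) + r) * L2| +
        |((k : ℝ) * ((n : ℝ) - k) + (k : ℝ) * ((k : ℝ) - 1) / 2 - k - r) * L3| + _ := by
        refine (abs_add_le _ _).trans (add_le_add ?_ le_rfl)
        refine (abs_add_le _ _).trans (add_le_add ?_ le_rfl)
        exact abs_add_le _ _
    _ ≤ FF |l| r (k * s ^ 2) s := by
        rw [FF, abs_abs]
        exact add_le_add (add_le_add (add_le_add h1 b2) b3) b4

end LMTx

open LMTx

/-- PACKET LMT (pointwise limit). -/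
theorem goalLMT : StmtLMT := by
  intro l x r κ hx hκ
  let s : ℕ → ℝ := fun n => (n : ℝ) ^ (-((1 : ℝ) / 3))
  have hs0 : Tendsto s atTop (𝓝 0) :=
    (tendsto_rpow_neg_atTop (by norm_num : (0 : ℝ) < 1 / 3)).comp tendsto_natCast_atTop_atTop
  let y : ℕ → ℝ := fun n => (κ n : ℝ) * s n ^ 2
  have hy : Tendsto y atTop (𝓝 x) := by
    refine hκ.congr' ?_
    filter_upwards [eventually_ge_atTop 1] with n hn
    have hN : (0 : ℝ) < n := by exact_mod_cast hn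
    show (κ n : ℝ) / (n : ℝ) ^ ((2 : ℝ) / 3) = (κ n : ℝ) * ((n : ℝ) ^ (-((1 : ℝ) / 3))) ^ 2
    rw [div_eq_mul_inv, ← Real.rpow_neg hN.le, ← Real.rpow_natCast, ← Real.rpow_mul hN.le]
    norm_num
  have hF : Tendsto (fun n => FF |l| r (y n) (s n)) atTop (𝓝 0) := by
    have hc : Continuous (fun q : ℝ × ℝ => FF |l| r q.1 q.2) := by
      unfold FF
      fun_prop
    have h1 := (hc.tendsto (x, 0)).comp (hy.prodMk_nhds hs0)
    have h2 : FF |l| r x 0 = 0 := by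
      simp [FF]
    simpa [Function.comp_def, h2] using h1
  have hls : ∀ᶠ n in atTop, |l * s n| ≤ 1 / 2 := by
    have h1 : Tendsto (fun n => |l * s n|) atTop (𝓝 0) := by
      have := (hs0.const_mul l).abs
      simpa using this
    exact h1.eventually (ge_mem_nhds (by norm_num))
  have hys : ∀ᶠ n in atTop, y n * s n ≤ 1 / 2 := by
    have h1 : Tendsto (fun n => y n * s n) atTop (𝓝 0) := by
      have := hy.mul hs0
      simpa using this
    exact h1.eventually (ge_mem_nhds (by norm_num))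
  have hpp : ∀ᶠ n in atTop, (1 + l * s n) * s n ^ 3 ≤ 1 / 2 := by
    have h1 : Tendsto (fun n => (1 + l * s n) * s n ^ 3) atTop (𝓝 0) := by
      have := ((tendsto_const_nhds (x := (1 : ℝ))).add (hs0.const_mul l)).mul (hs0.pow 3)
      simpa using this
    exact h1.eventually (ge_mem_nhds (by norm_num))
  -- the logarithm
  let T : ℕ → ℝ := fun n => Real.log (n.descFactorial (κ n) : ℝ) +
    (MM n (κ n) : ℝ) * Real.log (1 - (1 + l * s n) * s n ^ 3) +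
    ((κ n : ℝ) + r) * (Real.log ((1 + l * s n) * s n ^ 3) -
      Real.log (1 - (1 + l * s n) * s n ^ 3)) + κ n + r * Real.log n
  have hsn : ∀ n : ℕ, 1 ≤ n → 0 < s n ∧ (n : ℝ) * s n ^ 3 = 1 ∧
      pc l n = (1 + l * s n) * s n ^ 3 := by
    intro n hn
    have hN : (0 : ℝ) < n := by exact_mod_cast hn
    have h1 : s n ^ 3 = (n : ℝ)⁻¹ := by
      show ((n : ℝ) ^ (-((1 : ℝ) / 3))) ^ 3 = _
      rw [← Real.rpow_natCast, ← Real.rpow_mul hN.le]
      norm_num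
      exact Real.rpow_neg_one _
    refine ⟨Real.rpow_pos_of_pos hN _, ?_, ?_⟩
    · rw [h1]
      exact mul_inv_cancel₀ hN.ne'
    · rw [h1, pc]
      have h2 : s n = ((n : ℝ) ^ ((1 : ℝ) / 3))⁻¹ := Real.rpow_neg hN.le _
      rw [h2, div_eq_mul_inv, div_eq_mul_inv]
  have h2k : ∀ᶠ n in atTop, 2 * κ n ≤ n := by
    filter_upwards [hys, eventually_ge_atTop 1] with n h1 hn
    obtain ⟨hs, hNs, -⟩ := hsn n hn
    have h3 : (κ n : ℝ) * s n ^ 3 ≤ 1 / 2 := by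
      have : y n * s n = (κ n : ℝ) * s n ^ 3 := by
        show (κ n : ℝ) * s n ^ 2 * s n = _
        ring
      rwa [← this]
    have h4 : (2 * κ n : ℝ) * s n ^ 3 ≤ (n : ℝ) * s n ^ 3 := by
      rw [hNs]
      linarith
    have h5 : (2 * κ n : ℝ) ≤ n := le_of_mul_le_mul_right h4 (by positivity)
    exact_mod_cast h5
  have hT : Tendsto T atTop (𝓝 (-((x - l) ^ 3 + l ^ 3) / 6)) := by
    have hmain : Tendsto (fun n => -(y n) ^ 3 / 6 - l ^ 2 * y n / 2 + l * (y n) ^ 2 / 2) atTop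
        (𝓝 (-((x - l) ^ 3 + l ^ 3) / 6)) := by
      have h1 : -((x - l) ^ 3 + l ^ 3) / 6 = -x ^ 3 / 6 - l ^ 2 * x / 2 + l * x ^ 2 / 2 := by
        ring
      rw [h1]
      exact (((hy.pow 3).neg.div_const 6).sub ((hy.const_mul (l ^ 2)).div_const 2)).add
        (((hy.pow 2).const_mul l).div_const 2)
    have hdiff : Tendsto (fun n => T n - (-(y n) ^ 3 / 6 - l ^ 2 * y n / 2 + l * (y n) ^ 2 / 2))
        atTop (𝓝 0) := by
      rw [tendsto_zero_iff_abs_tendsto_zero]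
      refine squeeze_zero' (Eventually.of_forall fun n => abs_nonneg _) ?_ hF
      filter_upwards [hls, hpp, h2k, eventually_ge_atTop 1] with n h1 h2 h3 hn
      obtain ⟨hs, hNs, -⟩ := hsn n hn
      exact bound l r n (κ n) hn h3 (s n) hs hNs h1 h2
    have := hdiff.add hmain
    simpa using this
  refine ((Real.continuous_exp.tendsto _).comp hT).congr' ?_
  filter_upwards [hls, hpp, h2k, eventually_ge_atTop 1] with n h1 h2 h3 hn
  obtain ⟨hs, hNs, hpc⟩ := hsn n hn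
  have hN : (0 : ℝ) < n := by exact_mod_cast hn
  have hl1 : 0 < 1 + l * s n := by
    have := (abs_le.1 h1).1
    linarith
  have hp0 : 0 < (1 + l * s n) * s n ^ 3 := by positivity
  have hp1 : 0 < 1 - (1 + l * s n) * s n ^ 3 := by linarith
  have hd : (0 : ℝ) < (n.descFactorial (κ n) : ℝ) := by
    exact_mod_cast Nat.descFactorial_pos.2 (by omega)
  show Real.exp (T n) = _
  rw [hpc]
  simp only [T]
  rw [Real.exp_add, Real.exp_add, Real.exp_add, Real.exp_add, Real.exp_log hd,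
    mul_comm (MM n (κ n) : ℝ), ← Real.rpow_def_of_pos hp1, Real.rpow_natCast,
    ← Real.log_div hp0.ne' hp1.ne', mul_comm ((κ n : ℝ) + r),
    mul_comm (r : ℝ) (Real.log n), ← Real.rpow_def_of_pos hN, Real.rpow_natCast]
  have h4 : ((κ n : ℝ) + r) = ((κ n + r : ℕ) : ℝ) := by push_cast; ring
  rw [h4, ← Real.rpow_def_of_pos (div_pos hp0 hp1), Real.rpow_natCast]

end Pool.Agent.Helper74.AL
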