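import Pool.Agent.Helper26.AL.GoalsA

/-!
# Project AL (MP_af6c86_pr): packet PW1, Moebius inversion over the family of components
-/

set_option autoImplicit false

namespace Pool.Agent.Helper74.AL

open Finset Pool.Agent.Helper26.AF Pool.Agent.Helper26.AL

/-- PACKET PW1 (Moebius inversion over the family of components; from CLO). -/
theorem goalPW1 (hCLO : StmtCLO) : StmtPW1 := by
  classical
  intro n R g G
  obtain ⟨h1, h2, h3⟩ := hCLO n R G
  set C := cxs R G with hC
  have inner : ∀ A ∈ C.powerset, (∑ B ∈ C.powerset,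
      if Disjoint (A.sup id) (B.sup id) then (-1 : ℝ) ^ cc (gi G (B.sup id)) else 0)
      = if A = C then 1 else 0 := by
    intro A hA
    rw [mem_powerset] at hA
    have e1 : (∑ B ∈ C.powerset,
        if Disjoint (A.sup id) (B.sup id) then (-1 : ℝ) ^ cc (gi G (B.sup id)) else 0)
        = ∑ B ∈ C.powerset, if Disjoint A B then (-1 : ℝ) ^ #B else 0 := by
      refine Finset.sum_congr rfl fun B hB => ?_
      rw [mem_powerset] at hB
      rw [(h1 B hB).2.1]
      by_cases hd : Disjoint A B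
      · rw [if_pos hd, if_pos ((h2 A hA B hB).2 hd)]
      · rw [if_neg hd, if_neg (fun h => hd ((h2 A hA B hB).1 h))]
    rw [e1, ← Finset.sum_filter]
    have e2 : C.powerset.filter (fun B => Disjoint A B) = (C \ A).powerset := by
      ext B
      rw [mem_filter, mem_powerset, mem_powerset, subset_sdiff, disjoint_comm]
    rw [e2]
    have e3 := Finset.sum_powerset_neg_one_pow_card (x := C \ A)
    have e4 : (∑ B ∈ (C \ A).powerset, (-1 : ℝ) ^ #B)
        = ((∑ B ∈ (C \ A).powerset, (-1 : ℤ) ^ #B : ℤ) : ℝ) := by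
      push_cast
      rfl
    rw [e4, e3]
    by_cases h : A = C
    · subst h
      rw [if_pos (Finset.sdiff_self _), if_pos rfl, Int.cast_one]
    · have h5 : C \ A ≠ ∅ := by
        intro h6
        rw [sdiff_eq_empty_iff_subset] at h6
        exact h (Subset.antisymm hA h6)
      rw [if_neg h5, if_neg h, Int.cast_zero]
  let Ψ : Finset (Fin n) → Finset (Fin n) → ℝ := fun U₁ U₂ =>
    if Disjoint U₁ U₂ then (-1 : ℝ) ^ cc (gi G U₂) else 0
  let Φ : Finset (Fin n) → ℝ := fun U₁ =>
    if Embeds (gi G U₁) g then ∑ B ∈ C.powerset, Ψ U₁ (B.sup id) else 0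
  have step : ∀ U₁ : Finset (Fin n), (∑ U₂ : Finset (Fin n),
      if Disjoint U₁ U₂ ∧ (Clo G U₁ ∧ Clo G U₂) ∧ CXR R (gi G U₁) ∧ Embeds (gi G U₁) g ∧
        CXR R (gi G U₂) then (-1 : ℝ) ^ cc (gi G U₂) else 0)
      = if Clo G U₁ ∧ CXR R (gi G U₁) then Φ U₁ else 0 := by
    intro U₁
    by_cases ha : Clo G U₁ ∧ CXR R (gi G U₁)
    · rw [if_pos ha]
      by_cases hb : Embeds (gi G U₁) g
      · have e5 : Φ U₁ = ∑ B ∈ C.powerset, Ψ U₁ (B.sup id) := if_pos hb
        rw [e5]
        refine Eq.trans ?_ (h3 (Ψ U₁))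
        refine Finset.sum_congr rfl fun U₂ _ => ?_
        by_cases hc : Clo G U₂ ∧ CXR R (gi G U₂)
        · rw [if_pos hc]
          by_cases hd : Disjoint U₁ U₂
          · have e6 : Ψ U₁ U₂ = (-1 : ℝ) ^ cc (gi G U₂) := if_pos hd
            rw [e6, if_pos ⟨hd, ⟨ha.1, hc.1⟩, ha.2, hb, hc.2⟩]
          · have e6 : Ψ U₁ U₂ = 0 := if_neg hd
            rw [e6, if_neg (fun h => hd h.1)]
        · rw [if_neg hc, if_neg (fun h => hc ⟨h.2.1.2, h.2.2.2.2⟩)]
      · have e5 : Φ U₁ = 0 := if_neg hb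
        rw [e5]
        exact Finset.sum_eq_zero fun U₂ _ => if_neg fun h => hb h.2.2.2.1
    · rw [if_neg ha]
      exact Finset.sum_eq_zero fun U₂ _ => if_neg fun h => ha ⟨h.2.1.1, h.2.2.1⟩
  have total : (∑ U₁ : Finset (Fin n), if Clo G U₁ ∧ CXR R (gi G U₁) then Φ U₁ else 0)
      = if Embeds (gi G (C.sup id)) g then 1 else 0 := by
    have e7 := h3 Φ
    have e8 : (∑ U₁ : Finset (Fin n), if Clo G U₁ ∧ CXR R (gi G U₁) then Φ U₁ else 0)
        = ∑ A ∈ C.powerset, Φ (A.sup id) := by
      rw [← e7]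
    rw [e8, Finset.sum_eq_single C]
    · by_cases hb : Embeds (gi G (C.sup id)) g
      · have e9 : Φ (C.sup id) = ∑ B ∈ C.powerset, Ψ (C.sup id) (B.sup id) := if_pos hb
        rw [e9, if_pos hb]
        have e10 := inner C (mem_powerset_self C)
        rw [if_pos rfl] at e10
        exact e10
      · have e9 : Φ (C.sup id) = 0 := if_neg hb
        rw [e9, if_neg hb]
    · intro A hA hne
      by_cases hb : Embeds (gi G (A.sup id)) g
      · have e9 : Φ (A.sup id) = ∑ B ∈ C.powerset, Ψ (A.sup id) (B.sup id) := if_pos hb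
        rw [e9]
        have e10 := inner A hA
        rw [if_neg hne] at e10
        exact e10
      · exact if_neg hb
    · intro h
      exact absurd (mem_powerset_self C) h
  refine Eq.trans ?_ (total.trans ?_)
  · refine Finset.sum_congr rfl fun U₁ _ => ?_
    rw [← step U₁]
  · congr

end Pool.Agent.Helper74.AL
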